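import Pool.Agent.Lib.MP_776403_ag.SD.M.Gw
import Pool.Agent.Lib.MP_776403_ag.SD.NGro

/-!
# THEOREM SD, Lemma N with error terms: growth of the solutions of a difference equation
-/

set_option autoImplicit false

open MvPolynomial

noncomputable section

namespace Pool.Agent.Lib.MP_776403_ag.SD

open NGroAux

/-- Solutions of `∏_(i ∈ s) (T^(d i) - T^κ) H = O(m^r)` are `O(m^(r + |s|))`. -/
theorem mGro (r : ℕ) (ι : Type) [DecidableEq ι] (d : ι → ℕ) (κ : ℕ) (s : Finset ι)
    (hd : ∀ i ∈ s, d i ≠ κ) (H : ℕ → ℤ)
    (h : Gw r (fun m => ∑ A ∈ s.powerset,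
      (-1) ^ A.card * H (m - ∑ i ∈ A, d i - κ * (s \ A).card))) : Gw (r + s.card) H := by
  induction s using Finset.induction_on generalizing H with
  | empty =>
    refine h.of_eventually_eq (Filter.Eventually.of_forall fun m => ?_)
    simp
  | insert a s' ha ih =>
    have ha' : d a ≠ κ := hd a (Finset.mem_insert_self _ _)
    have hs' : ∀ i ∈ s', d i ≠ κ := fun i hi => hd i (Finset.mem_insert_of_mem hi)
    have hcard : (insert a s').card = s'.card + 1 := Finset.card_insert_of_notMem ha
    set H1 : ℕ → ℤ := fun m => H (m - κ) - H (m - d a) with hH1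
    have h1 : Gw r (fun m =>
        ∑ A ∈ s'.powerset, (-1) ^ A.card * H1 (m - ∑ i ∈ A, d i - κ * (s' \ A).card)) := by
      refine h.of_eventually_eq (Filter.Eventually.of_forall fun m => ?_)
      rw [Finset.sum_powerset_insert ha, ← Finset.sum_add_distrib]
      refine Finset.sum_congr rfl fun A hA => ?_
      have hA' := Finset.mem_powerset.1 hA
      have haA : a ∉ A := fun h => ha (hA' h)
      rw [Finset.sum_insert haA, Finset.card_insert_of_notMem haA]
      have e1 : (insert a s' \ A).card = (s' \ A).card + 1 := by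
        rw [Finset.insert_sdiff_of_notMem _ haA, Finset.card_insert_of_notMem]
        intro hx
        exact ha (Finset.mem_sdiff.1 hx).1
      have e2 : insert a s' \ insert a A = s' \ A := by
        ext x
        simp only [Finset.mem_sdiff, Finset.mem_insert, not_or]
        constructor
        · rintro ⟨hx, hxa, hxA⟩
          exact ⟨hx.resolve_left hxa, hxA⟩
        · rintro ⟨hx, hxA⟩
          exact ⟨Or.inr hx, fun hxa => ha (hxa ▸ hx), hxA⟩
      rw [e1, e2]
      have e3 : m - ∑ i ∈ A, d i - κ * ((s' \ A).card + 1) =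
          m - ∑ i ∈ A, d i - κ * (s' \ A).card - κ := by
        rw [mul_add, mul_one]
        omega
      have e4 : m - (d a + ∑ i ∈ A, d i) - κ * (s' \ A).card =
          m - ∑ i ∈ A, d i - κ * (s' \ A).card - d a := by
        omega
      rw [e3, e4, hH1]
      ring
    obtain ⟨C, hC0, hC⟩ := (ih hs' H1 h1).exists_nonneg
    -- the step
    obtain ⟨t, t', ht, hstep⟩ : ∃ t t' : ℕ, 1 ≤ t ∧
        ∀ n : ℕ, |H n| ≤ |H (n - t)| + |H1 (n + t')| := by
      rcases lt_or_gt_of_ne ha' with hlt | hlt
      · refine ⟨κ - d a, d a, by omega, fun n => ?_⟩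
        have e5 : n + d a - κ = n - (κ - d a) := by omega
        have e6 : H n = H (n - (κ - d a)) + -(H1 (n + d a)) := by
          rw [hH1]
          simp only [e5, Nat.add_sub_cancel]
          ring
        calc |H n| = |H (n - (κ - d a)) + -(H1 (n + d a))| := by rw [← e6]
          _ ≤ |H (n - (κ - d a))| + |-(H1 (n + d a))| := abs_add_le _ _
          _ = _ := by rw [abs_neg]
      · refine ⟨d a - κ, κ, by omega, fun n => ?_⟩
        have e5 : n + κ - d a = n - (d a - κ) := by omega
        have e6 : H n = H (n - (d a - κ)) + H1 (n + κ) := by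
          rw [hH1]
          simp only [e5, Nat.add_sub_cancel]
          ring
        calc |H n| = |H (n - (d a - κ)) + H1 (n + κ)| := by rw [← e6]
          _ ≤ _ := abs_add_le _ _
    obtain ⟨M, hM⟩ := Filter.eventually_atTop.1 hC
    obtain ⟨C', hC'⟩ := grow H t ht (r + s'.card + 1) (C * ((t' : ℤ) + 1) ^ (r + s'.card))
      (by positivity) (fun h0 => absurd h0 (by omega)) M (fun n hn => by
        have h2 := hM (n + t') (by omega)
        have h3 := hstep n
        have h4 : ((n + t' : ℕ) : ℤ) + 1 ≤ ((t' : ℤ) + 1) * ((n : ℤ) + 1) := by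
          push_cast
          nlinarith [Int.natCast_nonneg n, Int.natCast_nonneg t']
        have h5 : (((n + t' : ℕ) : ℤ) + 1) ^ (r + s'.card) ≤
            (((t' : ℤ) + 1) * ((n : ℤ) + 1)) ^ (r + s'.card) :=
          pow_le_pow_left₀ (by positivity) h4 _
        have h6 : C * (((n + t' : ℕ) : ℤ) + 1) ^ (r + s'.card) ≤
            C * ((t' : ℤ) + 1) ^ (r + s'.card) * ((n : ℤ) + 1) ^ (r + s'.card) := by
          rw [mul_assoc, ← mul_pow]
          exact mul_le_mul_of_nonneg_left h5 hC0
        rw [Nat.add_sub_cancel]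
        linarith)
    refine ⟨C', Filter.Eventually.of_forall fun n => ?_⟩
    rw [hcard, ← add_assoc]
    exact hC' n

end Pool.Agent.Lib.MP_776403_ag.SD
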