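import Pool.Agent.Lib.MP_776403_ag.SD.M.Gw
import Pool.Agent.Lib.MP_776403_ag.SD.NPow

/-!
# THEOREM SD, Lemma N with error terms: the formal counting

As in `NPow.lean`, with the equalities modulo functions which grow at most like `m ^ r`.
-/

set_option autoImplicit false

open MvPolynomial

noncomputable section

namespace Pool.Agent.Lib.MP_776403_ag.SD

open NPowAux

/-- The counting with errors. -/
theorem mPow (r c q : ℕ) (d : Fin c → ℕ) (f : Fin q → Fin c) (δ : ℕ → ℕ) (H : ℕ → ℤ)
    (h : ℕ → ℕ → ℕ → ℤ) (hf : Function.Injective f) (hδ : ∀ i : Fin q, δ i = d (f i))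
    (h0 : ∀ j ≤ c, Gw r (fun m => h 0 j m -
      ∑ A ∈ Finset.powersetCard j (Finset.univ : Finset (Fin c)), H (m - ∑ i ∈ A, d i)))
    (hrec : ∀ i ≤ q, ∀ j, ∀ᶠ m : ℕ in Filter.atTop,
      h i (j + 1) (m + δ i) = h (i + 1) (j + 1) (m + δ i) + h (i + 1) j m)
    (hz : ∀ i ≤ q, ∀ᶠ m : ℕ in Filter.atTop, h i 0 m = h (i + 1) 0 m)
    (hend : ∀ j, c < q + 1 + j → ∀ᶠ m : ℕ in Filter.atTop, h (q + 1) j m = 0) :
    Gw r (fun m => ∑ A ∈ ((Finset.univ : Finset (Fin c)) \ Finset.univ.image f).powerset,
        (-1) ^ A.card * H (m - ∑ i ∈ A, d i -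
          δ q * (((Finset.univ : Finset (Fin c)) \ Finset.univ.image f) \ A).card)) := by
  have hrec' : ∀ i ≤ q, ∀ j, ∀ᶠ m : ℕ in Filter.atTop,
      h i (j + 1) m = h (i + 1) (j + 1) m + h (i + 1) j (m - δ i) := by
    intro i hi j
    filter_upwards [ev_sub (δ i) (hrec i hi j), Filter.eventually_ge_atTop (δ i)] with m h1 h2
    rwa [Nat.sub_add_cancel h2] at h1
  have key : ∀ i, i ≤ q → ∀ j, j ≤ c → Gw r (fun m => h i j m -
      ∑ A ∈ Finset.powersetCard j (rest f i), H (m - ∑ l ∈ A, d l)) := by
    intro i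
    induction i with
    | zero =>
      intro _ j hj
      rw [rest_zero]
      exact h0 j hj
    | succ i ih =>
      intro hi j
      have hi' : i < q := hi
      obtain ⟨hins, hnot⟩ := rest_step hf hi'
      induction j with
      | zero =>
        intro hj
        refine (ih hi'.le 0 hj).of_eventually_eq ?_
        filter_upwards [hz i hi'.le] with m h2
        rw [← h2, Finset.powersetCard_zero, Finset.powersetCard_zero]
      | succ j ihj =>
        intro hj
        have g1 := ih hi'.le (j + 1) hj
        have g2 := (ihj (Nat.le_of_succ_le hj)).shift (δ i)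
        refine (g1.sub g2).of_eventually_eq ?_
        filter_upwards [hrec' i hi'.le j] with m h2
        have h4 := split d H (f ⟨i, hi'⟩) (rest f (i + 1)) hnot j m
        rw [← hins, ← hδ ⟨i, hi'⟩] at h4
        simp only at h4
        rw [h4, h2]
        ring
  rw [← rest_last f]
  set s := rest f q with hs
  have hcard : c < q + 1 + s.card := by
    have h1 : (Finset.univ : Finset (Fin c)).card ≤
        ((Finset.univ : Finset (Fin c)) \ Finset.univ.image f).card +
          ((Finset.univ : Finset (Fin q)).image f).card := Finset.card_le_card_sdiff_add_card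
    have h2 : ((Finset.univ : Finset (Fin q)).image f).card ≤ (Finset.univ : Finset (Fin q)).card :=
      Finset.card_image_le
    rw [← rest_last f, ← hs, Finset.card_univ, Fintype.card_fin] at h1
    rw [Finset.card_univ (α := Fin q), Fintype.card_fin] at h2
    omega
  have hsc : s.card ≤ c := by
    have := Finset.card_le_univ s
    rwa [Fintype.card_fin] at this
  have hB : ∀ᶠ m : ℕ in Filter.atTop, ∀ j ∈ Finset.range s.card,
      h q (j + 1) (m - δ q * (s.card - (j + 1))) =
        h (q + 1) (j + 1) (m - δ q * (s.card - (j + 1))) +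
          h (q + 1) j (m - δ q * (s.card - (j + 1)) - δ q) := by
    rw [Filter.eventually_all_finset]
    intro j _
    exact ev_sub (δ q * (s.card - (j + 1))) (hrec' q le_rfl j)
  have hzero : ∀ᶠ m : ℕ in Filter.atTop,
      ∑ j ∈ Finset.range (s.card + 1), (-1) ^ j * h q j (m - δ q * (s.card - j)) = 0 := by
    filter_upwards [hB, ev_sub (δ q * (s.card - 0)) (hz q le_rfl), hend s.card hcard]
      with m h2 h3 h4
    have h5 := tele (fun j => h q j (m - δ q * (s.card - j)))
      (fun j => h (q + 1) j (m - δ q * (s.card - j))) s.card h3 (by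
        intro j hj
        have h6 := h2 j (Finset.mem_range.2 hj)
        rw [Nat.sub_sub] at h6
        have h7 : δ q * (s.card - (j + 1)) + δ q = δ q * (s.card - j) := by
          have h8 : s.card - j = (s.card - (j + 1)) + 1 := by omega
          rw [h8, Nat.mul_add, Nat.mul_one]
        rw [h7] at h6
        exact h6)
    rw [Nat.sub_self, Nat.mul_zero, Nat.sub_zero, h4, mul_zero] at h5
    exact h5
  have hA : Gw r (fun m => ∑ j ∈ Finset.range (s.card + 1), (-1) ^ j *
      (h q j (m - δ q * (s.card - j)) -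
        ∑ A ∈ Finset.powersetCard j s, H (m - δ q * (s.card - j) - ∑ l ∈ A, d l))) := by
    refine Gw.sum (Finset.range (s.card + 1)) _ fun j hj => ?_
    refine Gw.const_mul ((-1) ^ j) ?_
    have hj' : j ≤ c := by
      have := Finset.mem_range.1 hj
      omega
    exact (key q le_rfl j hj').shift (δ q * (s.card - j))
  refine hA.neg.of_eventually_eq ?_
  filter_upwards [hzero] with m hm
  have e1 : ∑ j ∈ Finset.range (s.card + 1), (-1) ^ j *
      (h q j (m - δ q * (s.card - j)) -
        ∑ A ∈ Finset.powersetCard j s, H (m - δ q * (s.card - j) - ∑ l ∈ A, d l)) =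
      - ∑ j ∈ Finset.range (s.card + 1), (-1) ^ j *
        ∑ A ∈ Finset.powersetCard j s, H (m - δ q * (s.card - j) - ∑ l ∈ A, d l) := by
    rw [← Finset.sum_neg_distrib, ← sub_eq_zero, ← Finset.sum_sub_distrib, ← hm]
    exact Finset.sum_congr rfl fun j _ => by ring
  rw [e1, neg_neg, Finset.sum_powerset]
  refine Finset.sum_congr rfl (fun j hj => ?_)
  rw [Finset.mul_sum]
  refine Finset.sum_congr rfl (fun A hA => ?_)
  obtain ⟨hAs, hAc⟩ := Finset.mem_powersetCard.1 hA
  rw [Finset.card_sdiff_of_subset hAs, hAc, Nat.sub_sub, Nat.sub_sub, Nat.add_comm]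

end Pool.Agent.Lib.MP_776403_ag.SD
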