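import Pool.Agent.Lib.MP_776403_ag.SD.NAsm
import Pool.Agent.Lib.MP_776403_ag.SD.NMain
import Pool.Agent.Lib.MP_776403_ag.SD.M.Pow
import Pool.Agent.Lib.MP_776403_ag.SD.M.Gro

/-!
# THEOREM SD, Lemma N with error terms

The numerical hypothesis is only about the variety of the prime ideal `J`, and only modulo
functions which grow at most like `m ^ (e - 1)`.
-/

set_option autoImplicit false

open MvPolynomial

noncomputable section

namespace Pool.Agent.Lib.MP_776403_ag.SD

/-- The Hilbert functions of `Λ^j N_X^*|_C` and of `⊕_{|A| = j} O_C(-∑_{i ∈ A} d_i)` (`C` the variety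
of `J`, `j ≤ c`) differ at most by `O(m^(e-1))`. -/
def NumErr {N c : ℕ} (I J : Ideal (Sx N)) (d : Fin c → ℕ) (e : ℕ) : Prop :=
  ∀ j ≤ c, Gw (e - 1) (fun m => (Module.finrank ℂ (Lam I J j m) : ℤ) -
    ∑ A ∈ Finset.powersetCard j (Finset.univ : Finset (Fin c)),
      (Module.finrank ℂ (gr J (m - ∑ i ∈ A, d i)) : ℤ))

/-- LEMMA N WITH ERROR TERMS: as `S_N`, with the weak numerical hypothesis `NumErr I J d e`; the
conclusion is `dim J ≤ e + c - q`. -/
def S_N2 : Prop :=
  ∀ (N c : ℕ) (d : Fin c → ℕ) (I : Ideal (Sx N)), I.IsPrime → IsHom I → Smooth I c →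
  ∀ J : Ideal (Sx N), J.IsPrime → IsHom J → I ≤ J → ∀ e : ℕ, 1 ≤ e → NumErr I J d e →
  ∀ (q : ℕ) (sig : Fin (q + 1) → (Vx N → Vx N)) (del : Fin (q + 1) → ℕ) (f : Fin q → Fin c),
    (∀ i, IsSect I J (del i) (sig i)) → (∀ i, 1 ≤ del i) →
    (∀ y ∈ zer J, y ≠ 0 → LinearIndependent ℂ (fun i => sig i y)) →
    Function.Injective f → (∀ i, del (Fin.castSucc i) = d (f i)) →
    (∀ j, j ∉ Set.range f → d j ≠ del (Fin.last q)) → ¬ DimGe J (e + (c - q) + 1)

open NAsmAux

/-- Lemma N with error terms, from its parts. -/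
theorem mNN (hD1 : S_D1) (hIrr : S_Irr) (hRec : S_NRec)
    (hBin : S_NBin) (hRel : S_NRel) (hCnv : S_NCnv) : S_N2 := by
  intro N c d I hIp hIh hIs J hJp hJh hle e he1 hnum q sig del f hsig hdel hind hf hdf hlast hdim
  by_cases hz : ∃ y ∈ zer J, y ≠ 0
  · haveI := hJp
    obtain ⟨σ, δ, hδ, D⟩ := hCnv N c (FractionRing (Sx N ⧸ J)) I J (piK J) hIp hIh
      hIs hJp hJh hle (piK_ker J hJp) hz (q + 1) sig del hsig hdel hind
    obtain ⟨hA, hB, hC⟩ := hRec N c (q + 1) (FractionRing (Sx N ⧸ J)) I J (piK J) σ δ D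
    have hδ0 : ∀ i : Fin q, δ i = d (f i) := by
      intro i
      have := hδ (Fin.castSucc i)
      rw [Fin.val_castSucc] at this
      rw [this, hdf]
    have hδq : δ q = del (Fin.last q) := by
      have := hδ (Fin.last q)
      rwa [Fin.val_last] at this
    have key := mPow (e - 1) c q d f δ (fun m => (Module.finrank ℂ (gr J m) : ℤ))
      (fun i j m => (Module.finrank ℂ (Li I (piK J) σ i j m) : ℤ)) hf hδ0
      (by
        intro j hj
        refine (hnum j hj).of_eventually_eq (Filter.Eventually.of_forall fun m => ?_)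
        rw [Li_zero, hRel N _ I J (piK J) (piK_ker J hJp) j m])
      (by
        intro i hi j
        filter_upwards [hA i (Nat.lt_succ_of_le hi) j] with m hm
        rw [hm]
        push_cast
        rfl)
      (by
        intro i hi
        refine Filter.Eventually.of_forall fun m => ?_
        rw [hB i (Nat.lt_succ_of_le hi) m])
      (by
        intro j hj
        refine Filter.Eventually.of_forall fun m => ?_
        rw [hC j hj m]
        rfl)
    have hs : ((Finset.univ : Finset (Fin c)) \ Finset.univ.image f).card = c - q := by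
      rw [Finset.card_sdiff_of_subset (Finset.subset_univ _),
        Finset.card_image_of_injective _ hf, Finset.card_univ, Finset.card_univ, Fintype.card_fin,
        Fintype.card_fin]
    have hne : ∀ i ∈ (Finset.univ : Finset (Fin c)) \ Finset.univ.image f, d i ≠ δ q := by
      intro i hi
      rw [hδq]
      refine hlast i fun hr => ?_
      obtain ⟨k, hk⟩ := hr
      exact (Finset.mem_sdiff.1 hi).2 (Finset.mem_image.2 ⟨k, Finset.mem_univ _, hk⟩)
    obtain ⟨C, hC'⟩ := mGro (e - 1) (Fin c) d (δ q) _ hne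
      (fun m => (Module.finrank ℂ (gr J m) : ℤ)) key
    rw [hs] at hC'
    have hch : ∀ m : ℕ, (Nat.choose (m + (e + (c - q))) (e + (c - q)) : ℤ) ≤
        (Module.finrank ℂ (gr J m) : ℤ) := fun m => by
      exact_mod_cast hD1 N J (e + (c - q)) hdim m
    obtain ⟨m, hm1, hm2⟩ := (hC'.and (hBin (e + (c - q)) C (by omega))).exists
    have h3 := hch m
    have h4 := le_abs_self (Module.finrank ℂ (gr J m) : ℤ)
    have h5 : e + (c - q) - 1 = e - 1 + (c - q) := by omega
    rw [h5] at hm2
    linarith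
  · have hz' : ∀ z ∈ zer J, z = 0 := by
      intro z hzJ
      by_contra hne
      exact hz ⟨z, hzJ, hne⟩
    obtain ⟨r, hr⟩ := hIrr N J hJh hz'
    obtain ⟨i, hi⟩ := hdim
    have hX : (X (i 0) : Sx N) ∈ J := by
      have : ((X (i 0) : Sx N) ^ r) ∈ J := hr r le_rfl _ (by
        have := (isHomogeneous_X ℂ (i 0)).pow r
        rwa [one_mul] at this)
      exact hJp.mem_of_pow_mem r this
    haveI := hJp
    have := hi.ne_zero 0
    exact this (Ideal.Quotient.eq_zero_iff_mem.2 hX)

/-- Lemma N with error terms, from the dimension lemma (D1), (D6'), the Nullstellensatz and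
`S_Perp`. -/
theorem mN2 (hD1 : S_D1) (h6 : S_D6') (hNull : S_Null) (hPerp : S_Perp) : S_N2 :=
  mNN hD1 (nIrr h6)
    (nRec (nKerA nNoe (nSat (nIrr h6)) nLfg nFun nCon) (nKerB (nSat (nIrr h6)) nLfg nCrm)
      nLi0 nDep nLfg)
    nBin (nRel nDet) (nCnv hNull (nRk hPerp (nSpc hNull)) (nSpc hNull))

end Pool.Agent.Lib.MP_776403_ag.SD
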