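import Pool.Agent.Lib.MP_776403_ag.SD.M.PC
import Pool.Agent.Lib.MP_776403_ag.SD.M.NN
import Pool.Agent.Lib.MP_776403_ag.SD.K.SpecK
import Pool.Agent.Lib.MP_776403_ag.SD.V.Spec

/-!
# THEOREM SD, stage 2: from the Hilbert series of the exterior powers of the conormal module of
# `X` and the self-intersection formula to the hypothesis of Lemma N with error terms
-/

set_option autoImplicit false

noncomputable section

namespace Pool.Agent.Lib.MP_776403_ag.SD

open Polynomial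

/-- `Lam I I j` has, modulo `(1 - T)^(N+1-c)`, the Hilbert series of `⊕ O(-∑_A d)`: then for every
`J ≥ I` the error terms are `O(m^(c-1))`. -/
def S_PErr : Prop :=
  ∀ (N c : ℕ) (I : Ideal (Sx N)) (d : Fin c → ℕ), I.IsPrime → IsHom I → Smooth I c → 1 ≤ c →
    c ≤ N → ∀ (P q0 : ℤ[X]) (Pj : ℕ → ℤ[X]),
    (1 - PowerSeries.X) ^ (N + 1) * ps (fun k => Module.finrank ℂ (gr I k)) =
      (P : PowerSeries ℤ) →
    (∀ j ≤ c, (1 - PowerSeries.X) ^ (N + 1) * ps (hV I (VL I j)) = (Pj j : PowerSeries ℤ)) →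
    P = (1 - X) ^ c * q0 → q0.eval 1 ≠ 0 →
    (∀ j ≤ c, (1 - X : ℤ[X]) ^ (N + 1 - c) ∣ X ^ j * Pj j - SDV.esd d j * P) →
    ∀ J : Ideal (Sx N), J.IsPrime → IsHom J → I ≤ J → NumErr I J d c

namespace BrAux

variable {N : ℕ}

/-- The Hilbert function decreases with the variety. -/
theorem hV_mono {α : Type} {I J : Ideal (Sx N)} (h : I ≤ J) (V : ℕ → Submodule ℂ (α → Sx N))
    (k : ℕ) (hf : FiniteDimensional ℂ (V k)) : hV J V k ≤ hV I V k := by
  let g : (α → Sx N ⧸ I) →ₗ[ℂ] (α → Sx N ⧸ J) :=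
    { toFun := fun v a => Ideal.Quotient.factorₐ ℂ h (v a)
      map_add' := fun v w => by funext a; simp
      map_smul' := fun r v => by
        funext a
        change Ideal.Quotient.factorₐ ℂ h (r • v a) = r • Ideal.Quotient.factorₐ ℂ h (v a)
        exact map_smul _ r (v a) }
  have hg : g.comp (redL α I) = redL α J := by
    ext v a
    rfl
  have hm : ((V k).map (redL α I)).map g = (V k).map (redL α J) := by
    rw [← Submodule.map_comp, hg]
  unfold hV
  rw [← hm]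
  exact Submodule.finrank_map_le g _

/-- Coefficients of `T^a F`. -/
theorem coeff_pow_mul (F : PowerSeries ℤ) (a m : ℕ) (h : a ≤ m) :
    PowerSeries.coeff m (PowerSeries.X ^ a * F) = PowerSeries.coeff (m - a) F := by
  obtain ⟨n, rfl⟩ : ∃ n, m = n + a := ⟨m - a, by omega⟩
  rw [PowerSeries.coeff_X_pow_mul, Nat.add_sub_cancel]

/-- The series of the sum of the twists. -/
theorem esd_coeff {c : ℕ} (d : Fin c → ℕ) (j : ℕ) (h : ℕ → ℕ) :
    ∀ᶠ m : ℕ in Filter.atTop, PowerSeries.coeff m ((SDV.esd d j : PowerSeries ℤ) * ps h) =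
      ∑ A ∈ Finset.powersetCard j (Finset.univ : Finset (Fin c)), (h (m - ∑ i ∈ A, d i) : ℤ) := by
  filter_upwards [Filter.eventually_ge_atTop (∑ i, d i)] with m hm
  have e1 : (SDV.esd d j : PowerSeries ℤ) =
      ∑ A ∈ Finset.powersetCard j (Finset.univ : Finset (Fin c)),
        (PowerSeries.X : PowerSeries ℤ) ^ (∑ i ∈ A, d i) := by
    unfold SDV.esd
    have : ∀ s : Finset (Finset (Fin c)),
        ((∑ A ∈ s, X ^ (∑ i ∈ A, d i) : ℤ[X]) : PowerSeries ℤ) =
          ∑ A ∈ s, (PowerSeries.X : PowerSeries ℤ) ^ (∑ i ∈ A, d i) := by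
      intro s
      induction s using Finset.induction_on with
      | empty => simp
      | insert a s ha ih =>
        rw [Finset.sum_insert ha, Finset.sum_insert ha, Polynomial.coe_add, ih,
          Polynomial.coe_pow, Polynomial.coe_X]
    exact this _
  rw [e1, Finset.sum_mul, map_sum]
  refine Finset.sum_congr rfl fun A _ => ?_
  rw [coeff_pow_mul]
  · unfold ps
    rw [PowerSeries.coeff_mk]
  · exact (Finset.sum_le_sum_of_subset (Finset.subset_univ A)).trans hm

theorem ou_ne : (1 - PowerSeries.X : PowerSeries ℤ) ≠ 0 := by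
  intro h0
  have := congrArg PowerSeries.constantCoeff h0
  simp at this

theorem ou_ne' : (1 - X : ℤ[X]) ≠ 0 := by
  intro h0
  have := congrArg (Polynomial.eval 0) h0
  simp at this

theorem coe_ou (n : ℕ) : (((1 - X : ℤ[X]) ^ n : ℤ[X]) : PowerSeries ℤ) =
    (1 - PowerSeries.X) ^ n := by
  rw [Polynomial.coe_pow, Polynomial.coe_sub, Polynomial.coe_one, Polynomial.coe_X]

end BrAux

open BrAux

/-- The bridge. -/
theorem mPErr (hKI : S_KI) (hKHV : S_KHV) (hKVL : S_KVL) (hKPV : S_KPV) (hKGV : S_KGV)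
    (hKLF : S_KLF) : S_PErr := by
  intro N c I d hI hIh hIs hc hcN P q0 Pj hP hPj hq0 hq1 hdiv J hJ hJh hle j hj
  have gvA : GV (AF N) := hKGV.1 N
  have gvL : GV (VL I j) := (hKGV.2.2.1 N I j).1
  have hgr : ∀ K : Ideal (Sx N), hV K (AF N) = fun k => Module.finrank ℂ (gr K k) := by
    intro K
    funext k
    exact (hKPV.1 N Unit Unit K (AF N) (AF N) gvA k).2.2.2
  obtain ⟨PJ, hPJ⟩ := hKHV N Unit J (AF N) gvA
  obtain ⟨QJ, hQJ⟩ := hKHV N _ J (VL I j) gvL
  obtain ⟨p, hp⟩ := hKI N c (Fin j → Fin (N + 1)) Unit I J hI hIh hIs hJ hJh hle (VL I j) (AF N)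
    gvL gvA (hKLF N c I J hI hIh hIs hle j)
  have hPV : hV J (PV (VL I j) (AF N)) = hV J (VL I j) := by
    funext k
    exact (hKPV.1 N (Fin j → Fin (N + 1)) Unit J (VL I j) (AF N) gvL k).2.2.1
  rw [hPV] at hp
  rw [hgr J] at hPJ hp
  -- the order of `PJ` at `1`
  have hHI : Gw (N - c) (fun m => (Module.finrank ℂ (gr I m) : ℤ)) := by
    have h1 : (1 - PowerSeries.X) ^ (N - c + 1) * ps (fun k => Module.finrank ℂ (gr I k)) =
        (q0 : PowerSeries ℤ) := by
      have h2 : (1 - PowerSeries.X) ^ c * ((1 - PowerSeries.X) ^ (N - c + 1) *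
          ps (fun k => Module.finrank ℂ (gr I k))) =
          (1 - PowerSeries.X) ^ c * (q0 : PowerSeries ℤ) := by
        rw [← mul_assoc, ← pow_add, show c + (N - c + 1) = N + 1 by omega, hP, hq0,
          Polynomial.coe_mul, coe_ou]
      exact mul_left_cancel₀ (pow_ne_zero c ou_ne) h2
    have h3 := pc1 (N - c) _ q0 h1
    unfold ps at h3
    simpa only [PowerSeries.coeff_mk] using h3
  have hHJ : Gw (N - c) (fun m => (Module.finrank ℂ (gr J m) : ℤ)) := by
    obtain ⟨C, hC⟩ := hHI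
    refine ⟨C, ?_⟩
    filter_upwards [hC] with m hm
    refine le_trans ?_ hm
    rw [abs_of_nonneg (Int.natCast_nonneg _), abs_of_nonneg (Int.natCast_nonneg _)]
    have h1 := hV_mono hle (AF N) m ((hKGV.2.2.2 N Unit (AF N) gvA).2 inferInstance m)
    rw [hgr J, hgr I] at h1
    exact_mod_cast h1
  obtain ⟨RJ, hRJ⟩ : (1 - X : ℤ[X]) ^ c ∣ PJ := by
    refine pc2 (N - c + 1) (by omega) c (ps fun k => Module.finrank ℂ (gr J k)) PJ ?_ ?_
    · rw [show N - c + 1 + c = N + 1 by omega]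
      exact hPJ
    · rw [Nat.add_sub_cancel]
      unfold ps
      simpa only [PowerSeries.coeff_mk] using hHJ
  obtain ⟨R, hR⟩ := hdiv j hj
  -- the self-intersection formula for polynomials
  have hpoly : Pj j * PJ - P * QJ = (1 - X) ^ (N + 1) * p := by
    apply Polynomial.coe_injective ℤ
    rw [Polynomial.coe_sub, Polynomial.coe_mul, Polynomial.coe_mul, Polynomial.coe_mul, coe_ou,
      ← hp, ← hPj j hj, ← hPJ, ← hP, ← hQJ]
    ring
  set Δ : ℤ[X] := SDV.esd d j * PJ - X ^ j * QJ with hΔ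
  have h1 : P * Δ = (1 - X) ^ (N + 1) * (X ^ j * p - R * RJ) := by
    have h2 : (1 - X : ℤ[X]) ^ (N + 1) = (1 - X) ^ (N + 1 - c) * (1 - X) ^ c := by
      rw [← pow_add]
      congr 1
      omega
    calc P * Δ = X ^ j * (Pj j * PJ - P * QJ) - (X ^ j * Pj j - SDV.esd d j * P) * PJ := by
          rw [hΔ]; ring
      _ = X ^ j * ((1 - X) ^ (N + 1) * p) - (1 - X) ^ (N + 1 - c) * R * PJ := by rw [hpoly, hR]
      _ = X ^ j * ((1 - X) ^ (N + 1) * p) - (1 - X) ^ (N + 1 - c) * R * ((1 - X) ^ c * RJ) := by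
          rw [← hRJ]
      _ = _ := by rw [h2]; ring
  have h3 : q0 * Δ = (1 - X) ^ (N + 1 - c) * (X ^ j * p - R * RJ) := by
    refine mul_left_cancel₀ (pow_ne_zero c ou_ne') ?_
    rw [← mul_assoc, ← hq0, h1, ← mul_assoc, ← pow_add]
    congr 2
    omega
  obtain ⟨Δ', hΔ'⟩ : (1 - X : ℤ[X]) ^ (N + 1 - c) ∣ Δ :=
    dvd_of_unit (N + 1 - c) q0 Δ hq1 ⟨_, h3⟩
  -- back to power series
  have h4 : (1 - PowerSeries.X) ^ (c - 1 + 1) *
      ((SDV.esd d j : PowerSeries ℤ) * ps (fun k => Module.finrank ℂ (gr J k)) -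
        PowerSeries.X ^ j * ps (hV J (VL I j))) = (Δ' : PowerSeries ℤ) := by
    refine mul_left_cancel₀ (pow_ne_zero (N + 1 - c) ou_ne) ?_
    have e1 : (Δ : PowerSeries ℤ) = (1 - PowerSeries.X) ^ (N + 1 - c) * (Δ' : PowerSeries ℤ) := by
      rw [← coe_ou, ← Polynomial.coe_mul, ← hΔ']
    have e2 : (Δ : PowerSeries ℤ) = (SDV.esd d j : PowerSeries ℤ) * (PJ : PowerSeries ℤ) -
        PowerSeries.X ^ j * (QJ : PowerSeries ℤ) := by
      rw [hΔ, Polynomial.coe_sub, Polynomial.coe_mul, Polynomial.coe_mul, Polynomial.coe_pow,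
        Polynomial.coe_X]
    rw [← mul_assoc, ← pow_add, show N + 1 - c + (c - 1 + 1) = N + 1 by omega, ← e1, e2, ← hPJ,
      ← hQJ]
    ring
  have h5 := (pc1 (c - 1) _ Δ' h4).neg
  refine h5.of_eventually_eq ?_
  filter_upwards [esd_coeff d j (fun k => Module.finrank ℂ (gr J k)),
    Filter.eventually_ge_atTop j] with m hm hm2
  rw [map_sub, hm, coeff_pow_mul _ _ _ hm2]
  have h6 : PowerSeries.coeff (m - j) (ps (hV J (VL I j))) =
      (Module.finrank ℂ (Lam I J j m) : ℤ) := by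
    unfold ps
    rw [PowerSeries.coeff_mk]
    have h7 := (hKVL N I J j).1 (m - j)
    rw [Nat.sub_add_cancel hm2] at h7
    rw [h7]
    rfl
  rw [h6]
  ring

end Pool.Agent.Lib.MP_776403_ag.SD
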