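import Pool.Agent.Lib.MP_776403_ag.SD.M.Gw
import Pool.Agent.Lib.MP_776403_ag.SD.NGro
import Pool.Agent.Lib.MP_776403_ag.SD.NBin

/-!
# THEOREM SD, stage 2: growth of the coefficients and the order of the pole at `T = 1`
-/

set_option autoImplicit false

noncomputable section

namespace Pool.Agent.Lib.MP_776403_ag.SD

open NGroAux Polynomial

/-- The coefficients of `(1 - T) F`. -/
theorem coeff_one_sub_mul (F : PowerSeries ℤ) (n : ℕ) (hn : 1 ≤ n) :
    PowerSeries.coeff n F = PowerSeries.coeff (n - 1) F +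
      PowerSeries.coeff n ((1 - PowerSeries.X) * F) := by
  obtain ⟨m, rfl⟩ : ∃ m, n = m + 1 := ⟨n - 1, by omega⟩
  rw [sub_mul, one_mul, map_sub, PowerSeries.coeff_succ_X_mul, Nat.add_sub_cancel]
  ring

/-- One step: from `(1 - T) F` to `F`. -/
theorem gw_step (r : ℕ) (F : PowerSeries ℤ)
    (h : Gw r (fun m => PowerSeries.coeff m ((1 - PowerSeries.X) * F))) :
    Gw (r + 1) (fun m => PowerSeries.coeff m F) := by
  obtain ⟨C, hC0, hC⟩ := h.exists_nonneg
  obtain ⟨M, hM⟩ := Filter.eventually_atTop.1 hC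
  obtain ⟨C', hC'⟩ := grow (fun m => PowerSeries.coeff m F) 1 le_rfl (r + 1) C hC0
    (fun h0 => absurd h0 (by omega)) (M + 1) (fun n hn => by
      have h1 := coeff_one_sub_mul F n (by omega)
      have h2 := hM n (by omega)
      rw [Nat.add_sub_cancel]
      calc |PowerSeries.coeff n F| = |PowerSeries.coeff (n - 1) F +
            PowerSeries.coeff n ((1 - PowerSeries.X) * F)| := by rw [← h1]
        _ ≤ _ := (abs_add_le _ _).trans (add_le_add le_rfl h2))
  exact ⟨C', Filter.Eventually.of_forall hC'⟩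

/-- The coefficients of a polynomial are eventually zero. -/
theorem ev_zero (p : ℤ[X]) :
    ∀ᶠ m : ℕ in Filter.atTop, PowerSeries.coeff m (p : PowerSeries ℤ) = 0 := by
  filter_upwards [Filter.eventually_gt_atTop p.natDegree] with m hm
  rw [Polynomial.coeff_coe]
  exact Polynomial.coeff_eq_zero_of_natDegree_lt hm

/-- If `(1 - T)^(r+1) F` is a polynomial then the coefficients of `F` are `O(m^r)`. -/
theorem pc1 (r : ℕ) (F : PowerSeries ℤ) (p : ℤ[X])
    (h : (1 - PowerSeries.X) ^ (r + 1) * F = (p : PowerSeries ℤ)) :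
    Gw r (fun m => PowerSeries.coeff m F) := by
  induction r generalizing F with
  | zero =>
    rw [zero_add, pow_one] at h
    obtain ⟨M, hM⟩ := Filter.eventually_atTop.1 (ev_zero p)
    obtain ⟨C', hC'⟩ := grow (fun m => PowerSeries.coeff m F) 1 le_rfl 0 0 le_rfl
      (fun _ => rfl) (M + 1) (fun n hn => by
        have h1 := coeff_one_sub_mul F n (by omega)
        have h2 := hM n (by omega)
        rw [h, h2, add_zero] at h1
        rw [h1, zero_mul, add_zero])
    exact ⟨C', Filter.Eventually.of_forall hC'⟩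
  | succ r ih =>
    refine gw_step r F (ih _ ?_)
    rw [← mul_assoc, ← pow_succ]
    exact h

/-- `1 / (1 - T)^(g+1)`. -/
theorem inv_pow (g : ℕ) : (1 - PowerSeries.X) ^ (g + 1) *
    PowerSeries.mk (fun n => (Nat.choose (g + n) g : ℤ)) = (1 : PowerSeries ℤ) := by
  have h := PowerSeries.mk_add_choose_mul_one_sub_pow_eq_one (S := ℤ) g
  rw [mul_comm]
  exact h

/-- If `(1 - T)^(g+1) F = p` and the coefficients of `F` are `O(m^(g-1))`, `g ≥ 1`, then
`p(1) = 0`. -/
theorem pc2a (g : ℕ) (hg : 1 ≤ g) (F : PowerSeries ℤ) (p : ℤ[X])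
    (h : (1 - PowerSeries.X) ^ (g + 1) * F = (p : PowerSeries ℤ))
    (hF : Gw (g - 1) (fun m => PowerSeries.coeff m F)) : p.eval 1 = 0 := by
  by_contra hne
  set a : ℤ := p.eval 1 with ha
  set B : PowerSeries ℤ := PowerSeries.mk (fun n => (Nat.choose (g + n) g : ℤ)) with hB
  -- `p - a` is divisible by `1 - T`
  obtain ⟨r, hr⟩ : ∃ r : ℤ[X], p - C a = (1 - X) * r := by
    have h1 : (X - C 1 : ℤ[X]) ∣ p - C a := by
      rw [Polynomial.dvd_iff_isRoot, Polynomial.IsRoot, Polynomial.eval_sub, Polynomial.eval_C, ha,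
        sub_self]
    obtain ⟨r, hr⟩ := h1
    refine ⟨-r, ?_⟩
    rw [hr, C_1]
    ring
  have hu : (1 - PowerSeries.X : PowerSeries ℤ) ≠ 0 := by
    intro h0
    have := congrArg PowerSeries.constantCoeff h0
    simp at this
  have h3 : (1 - PowerSeries.X) ^ g * (F - PowerSeries.C a * B) = (r : PowerSeries ℤ) := by
    have h4 : (1 - PowerSeries.X) * ((1 - PowerSeries.X) ^ g * (F - PowerSeries.C a * B)) =
        (1 - PowerSeries.X) * (r : PowerSeries ℤ) := by
      have h5 : ((p - C a : ℤ[X]) : PowerSeries ℤ) = (((1 - X) * r : ℤ[X]) : PowerSeries ℤ) := by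
        rw [hr]
      rw [Polynomial.coe_sub, Polynomial.coe_C, Polynomial.coe_mul, Polynomial.coe_sub,
        Polynomial.coe_one, Polynomial.coe_X] at h5
      rw [← h5, ← h]
      have h6 := inv_pow g
      rw [← hB] at h6
      calc (1 - PowerSeries.X) * ((1 - PowerSeries.X) ^ g * (F - PowerSeries.C a * B)) =
            (1 - PowerSeries.X) ^ (g + 1) * F -
              PowerSeries.C a * ((1 - PowerSeries.X) ^ (g + 1) * B) := by ring
        _ = _ := by rw [h6, mul_one]
    exact mul_left_cancel₀ hu h4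
  obtain ⟨g', rfl⟩ : ∃ g', g = g' + 1 := ⟨g - 1, by omega⟩
  have h7 := pc1 g' _ r h3
  rw [Nat.add_sub_cancel] at hF
  have h8 : Gw g' (fun m => a * (Nat.choose (m + (g' + 1)) (g' + 1) : ℤ)) := by
    refine (hF.sub h7).of_eventually_eq (Filter.Eventually.of_forall fun m => ?_)
    rw [map_sub, PowerSeries.coeff_C_mul, hB, PowerSeries.coeff_mk, Nat.add_comm m]
    ring
  obtain ⟨C, hC⟩ := h8
  obtain ⟨m, hm1, hm2⟩ := (hC.and (nBin (g' + 1) C (by omega))).exists
  rw [Nat.add_sub_cancel] at hm2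
  have h9 : (1 : ℤ) ≤ |a| := Int.one_le_abs hne
  have h10 : (0 : ℤ) ≤ (Nat.choose (m + (g' + 1)) (g' + 1) : ℤ) := Int.natCast_nonneg _
  have h11 : (Nat.choose (m + (g' + 1)) (g' + 1) : ℤ) ≤
      |a * (Nat.choose (m + (g' + 1)) (g' + 1) : ℤ)| := by
    rw [abs_mul, abs_of_nonneg h10]
    nlinarith
  linarith

/-- If `(1 - T)^n F = p` and the coefficients of `F` are `O(m^(e-1))`, `1 ≤ e ≤ n`, then
`(1 - T)^(n-e)` divides `p`. -/
theorem pc2 (e : ℕ) (he : 1 ≤ e) (k : ℕ) (F : PowerSeries ℤ) (p : ℤ[X])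
    (h : (1 - PowerSeries.X) ^ (e + k) * F = (p : PowerSeries ℤ))
    (hF : Gw (e - 1) (fun m => PowerSeries.coeff m F)) : (1 - X : ℤ[X]) ^ k ∣ p := by
  induction k generalizing p with
  | zero => rw [pow_zero]; exact one_dvd _
  | succ k ih =>
    have h0 : p.eval 1 = 0 := pc2a (e + k) (by omega) F p h (hF.mono (by omega))
    obtain ⟨p1, hp1⟩ : ∃ r : ℤ[X], p = (1 - X) * r := by
      have h1 : (X - C 1 : ℤ[X]) ∣ p := by
        rw [Polynomial.dvd_iff_isRoot, Polynomial.IsRoot, h0]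
      obtain ⟨r, hr⟩ := h1
      refine ⟨-r, ?_⟩
      rw [hr, C_1]
      ring
    have hu : (1 - PowerSeries.X : PowerSeries ℤ) ≠ 0 := by
      intro h0
      have := congrArg PowerSeries.constantCoeff h0
      simp at this
    have h2 : (1 - PowerSeries.X) ^ (e + k) * F = (p1 : PowerSeries ℤ) := by
      refine mul_left_cancel₀ hu ?_
      rw [← mul_assoc, ← pow_succ', Nat.add_assoc, h, hp1, Polynomial.coe_mul, Polynomial.coe_sub,
        Polynomial.coe_one, Polynomial.coe_X]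
    rw [hp1, pow_succ']
    exact mul_dvd_mul_left _ (ih p1 h2)

/-- Cancelling a power of `1 - T` in `ℤ[T]`. -/
theorem dvd_of_unit (k : ℕ) (q p : ℤ[X]) (hq : q.eval 1 ≠ 0) (h : (1 - X : ℤ[X]) ^ k ∣ q * p) :
    (1 - X : ℤ[X]) ^ k ∣ p := by
  have hp : Prime (1 - X : ℤ[X]) := by
    have h1 : Prime (X - C 1 : ℤ[X]) := Polynomial.prime_X_sub_C 1
    have h2 : (1 - X : ℤ[X]) = -(X - C 1) := by rw [C_1]; ring
    rw [h2]
    exact h1.neg
  refine hp.pow_dvd_of_dvd_mul_left k ?_ h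
  rintro ⟨r, hr⟩
  apply hq
  rw [hr]
  simp

end Pool.Agent.Lib.MP_776403_ag.SD
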