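import Pool.Agent.Lib.MP_776403_ag.SD.M.Fin

/-!
# THEOREM SD, stage 2: the error term of the determinant, with a number
-/

set_option autoImplicit false

noncomputable section

namespace Pool.Agent.Lib.MP_776403_ag.SD

open Polynomial

/-- As `S_PErr`, for one exterior power and a number `b`. -/
def S_PErrB : Prop :=
  ∀ (N c b j : ℕ) (I : Ideal (Sx N)), I.IsPrime → IsHom I → Smooth I c → 1 ≤ c →
    c ≤ N → ∀ (P q0 Pj : ℤ[X]),
    (1 - PowerSeries.X) ^ (N + 1) * ps (fun k => Module.finrank ℂ (gr I k)) =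
      (P : PowerSeries ℤ) →
    (1 - PowerSeries.X) ^ (N + 1) * ps (hV I (VL I j)) = (Pj : PowerSeries ℤ) →
    P = (1 - X) ^ c * q0 → q0.eval 1 ≠ 0 →
    (1 - X : ℤ[X]) ^ (N + 1 - c) ∣ X ^ j * Pj - X ^ b * P →
    ∀ J : Ideal (Sx N), J.IsPrime → IsHom J → I ≤ J →
      Gw (c - 1) (fun m => (Module.finrank ℂ (Lam I J j m) : ℤ) -
        (Module.finrank ℂ (gr J (m - b)) : ℤ))

/-- From `q_c = T^b q_0` modulo `(1 - T)^(N+1-2c)` to the error bound for every `J ≥ I`. -/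
def S_NumB : Prop :=
  ∀ (N c b : ℕ) (I : Ideal (Sx N)), I.IsPrime → IsHom I → Smooth I c → 1 ≤ c →
    2 * c ≤ N + 1 → ∀ q : ℕ → ℤ[X], QP N c (fun k => Module.finrank ℂ (gr I k)) (q 0) →
    (q 0).eval 1 ≠ 0 → (∃ p, QP N c (hV I (VL I c)) p ∧ q c = X ^ c * p) →
    ((1 - X : ℤ[X]) ^ (N + 1 - 2 * c) ∣ q c - X ^ b * q 0) →
    ∀ J : Ideal (Sx N), J.IsPrime → IsHom J → I ≤ J →
      Gw (c - 1) (fun m => (Module.finrank ℂ (Lam I J c m) : ℤ) -
        (Module.finrank ℂ (gr J (m - b)) : ℤ))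

open BrAux

/-- The bridge. -/
theorem mPErrB (hKI : S_KI) (hKHV : S_KHV) (hKVL : S_KVL) (hKPV : S_KPV) (hKGV : S_KGV)
    (hKLF : S_KLF) : S_PErrB := by
  intro N c b j I hI hIh hIs hc hcN P q0 Pj hP hPj hq0 hq1 hdiv J hJ hJh hle
  have gvA : GV (AF N) := hKGV.1 N
  have gvL : GV (VL I j) := (hKGV.2.2.1 N I j).1
  have hgr : ∀ K : Ideal (Sx N), hV K (AF N) = fun k => Module.finrank ℂ (gr K k) := by
    intro K
    funext k
    exact (hKPV.1 N Unit Unit K (AF N) (AF N) gvA k).2.2.2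
  obtain ⟨PJ, hPJ⟩ := hKHV N Unit J (AF N) gvA
  obtain ⟨QJ, hQJ⟩ := hKHV N _ J (VL I j) gvL
  obtain ⟨p, hp⟩ := hKI N c (Fin j → Fin (N + 1)) Unit I J hI hIh hIs hJ hJh hle (VL I j) (AF N)
    gvL gvA (hKLF N c I J hI hIh hIs hle j)
  have hPV : hV J (PV (VL I j) (AF N)) = hV J (VL I j) := by
    funext k
    exact (hKPV.1 N (Fin j → Fin (N + 1)) Unit J (VL I j) (AF N) gvL k).2.2.1
  rw [hPV] at hp
  rw [hgr J] at hPJ hp
  -- the order of `PJ` at `1`
  have hHI : Gw (N - c) (fun m => (Module.finrank ℂ (gr I m) : ℤ)) := by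
    have h1 : (1 - PowerSeries.X) ^ (N - c + 1) * ps (fun k => Module.finrank ℂ (gr I k)) =
        (q0 : PowerSeries ℤ) := by
      have h2 : (1 - PowerSeries.X) ^ c * ((1 - PowerSeries.X) ^ (N - c + 1) *
          ps (fun k => Module.finrank ℂ (gr I k))) =
          (1 - PowerSeries.X) ^ c * (q0 : PowerSeries ℤ) := by
        rw [← mul_assoc, ← pow_add, show c + (N - c + 1) = N + 1 by omega, hP, hq0,
          Polynomial.coe_mul, coe_ou]
      exact mul_left_cancel₀ (pow_ne_zero c ou_ne) h2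
    have h3 := pc1 (N - c) _ q0 h1
    unfold ps at h3
    simpa only [PowerSeries.coeff_mk] using h3
  have hHJ : Gw (N - c) (fun m => (Module.finrank ℂ (gr J m) : ℤ)) := by
    obtain ⟨C, hC⟩ := hHI
    refine ⟨C, ?_⟩
    filter_upwards [hC] with m hm
    refine le_trans ?_ hm
    rw [abs_of_nonneg (Int.natCast_nonneg _), abs_of_nonneg (Int.natCast_nonneg _)]
    have h1 := hV_mono hle (AF N) m ((hKGV.2.2.2 N Unit (AF N) gvA).2 inferInstance m)
    rw [hgr J, hgr I] at h1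
    exact_mod_cast h1
  obtain ⟨RJ, hRJ⟩ : (1 - X : ℤ[X]) ^ c ∣ PJ := by
    refine pc2 (N - c + 1) (by omega) c (ps fun k => Module.finrank ℂ (gr J k)) PJ ?_ ?_
    · rw [show N - c + 1 + c = N + 1 by omega]
      exact hPJ
    · rw [Nat.add_sub_cancel]
      unfold ps
      simpa only [PowerSeries.coeff_mk] using hHJ
  obtain ⟨R, hR⟩ := hdiv
  -- the self-intersection formula for polynomials
  have hpoly : Pj * PJ - P * QJ = (1 - X) ^ (N + 1) * p := by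
    apply Polynomial.coe_injective ℤ
    rw [Polynomial.coe_sub, Polynomial.coe_mul, Polynomial.coe_mul, Polynomial.coe_mul, coe_ou,
      ← hp, ← hPj, ← hPJ, ← hP, ← hQJ]
    ring
  set Δ : ℤ[X] := X ^ b * PJ - X ^ j * QJ with hΔ
  have h1 : P * Δ = (1 - X) ^ (N + 1) * (X ^ j * p - R * RJ) := by
    have h2 : (1 - X : ℤ[X]) ^ (N + 1) = (1 - X) ^ (N + 1 - c) * (1 - X) ^ c := by
      rw [← pow_add]
      congr 1
      omega
    calc P * Δ = X ^ j * (Pj * PJ - P * QJ) - (X ^ j * Pj - X ^ b * P) * PJ := by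
          rw [hΔ]; ring
      _ = X ^ j * ((1 - X) ^ (N + 1) * p) - (1 - X) ^ (N + 1 - c) * R * PJ := by rw [hpoly, hR]
      _ = X ^ j * ((1 - X) ^ (N + 1) * p) - (1 - X) ^ (N + 1 - c) * R * ((1 - X) ^ c * RJ) := by
          rw [← hRJ]
      _ = _ := by rw [h2]; ring
  have h3 : q0 * Δ = (1 - X) ^ (N + 1 - c) * (X ^ j * p - R * RJ) := by
    refine mul_left_cancel₀ (pow_ne_zero c ou_ne') ?_
    rw [← mul_assoc, ← hq0, h1, ← mul_assoc, ← pow_add]
    congr 2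
    omega
  obtain ⟨Δ', hΔ'⟩ : (1 - X : ℤ[X]) ^ (N + 1 - c) ∣ Δ :=
    dvd_of_unit (N + 1 - c) q0 Δ hq1 ⟨_, h3⟩
  -- back to power series
  have h4 : (1 - PowerSeries.X) ^ (c - 1 + 1) *
      (PowerSeries.X ^ b * ps (fun k => Module.finrank ℂ (gr J k)) -
        PowerSeries.X ^ j * ps (hV J (VL I j))) = (Δ' : PowerSeries ℤ) := by
    refine mul_left_cancel₀ (pow_ne_zero (N + 1 - c) ou_ne) ?_
    have e1 : (Δ : PowerSeries ℤ) = (1 - PowerSeries.X) ^ (N + 1 - c) * (Δ' : PowerSeries ℤ) := by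
      rw [← coe_ou, ← Polynomial.coe_mul, ← hΔ']
    have e2 : (Δ : PowerSeries ℤ) = PowerSeries.X ^ b * (PJ : PowerSeries ℤ) -
        PowerSeries.X ^ j * (QJ : PowerSeries ℤ) := by
      rw [hΔ, Polynomial.coe_sub, Polynomial.coe_mul, Polynomial.coe_mul, Polynomial.coe_pow,
        Polynomial.coe_pow, Polynomial.coe_X]
    rw [← mul_assoc, ← pow_add, show N + 1 - c + (c - 1 + 1) = N + 1 by omega, ← e1, e2, ← hPJ,
      ← hQJ]
    ring
  have h5 := (pc1 (c - 1) _ Δ' h4).neg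
  refine h5.of_eventually_eq ?_
  filter_upwards [Filter.eventually_ge_atTop b, Filter.eventually_ge_atTop j] with m hm hm2
  rw [map_sub, coeff_pow_mul _ _ _ hm, coeff_pow_mul _ _ _ hm2]
  have h6 : PowerSeries.coeff (m - j) (ps (hV J (VL I j))) =
      (Module.finrank ℂ (Lam I J j m) : ℤ) := by
    unfold ps
    rw [PowerSeries.coeff_mk]
    have h7 := (hKVL N I J j).1 (m - j)
    rw [Nat.sub_add_cancel hm2] at h7
    rw [h7]
    rfl
  rw [h6]
  unfold ps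
  rw [PowerSeries.coeff_mk]
  ring

theorem mNumB (hP : S_PErrB) : S_NumB := by
  intro N c b I hI hIh hIs hc hcN q hq0 hq1 hp hdiv
  obtain ⟨p, hp1, hp2⟩ := hp
  refine hP N c b c I hI hIh hIs hc (by omega) ((1 - X) ^ c * q 0) (q 0)
    ((1 - X) ^ c * p) hq0 hp1 rfl hq1 ?_
  obtain ⟨r, hr⟩ := hdiv
  refine ⟨r, ?_⟩
  have h1 : (1 - X : ℤ[X]) ^ (N + 1 - c) = (1 - X) ^ c * (1 - X) ^ (N + 1 - 2 * c) := by
    rw [← pow_add]
    congr 1
    omega
  calc X ^ c * ((1 - X) ^ c * p) - X ^ b * ((1 - X) ^ c * q 0) =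
        (1 - X) ^ c * (X ^ c * p - X ^ b * q 0) := by ring
    _ = (1 - X) ^ c * (q c - X ^ b * q 0) := by rw [← hp2]
    _ = _ := by rw [hr, h1]; ring

end Pool.Agent.Lib.MP_776403_ag.SD
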