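import Pool.Agent.Lib.MP_776403_ag.SD.M.Br
import Pool.Agent.Lib.MP_776403_ag.SD.K.DefsS

/-!
# THEOREM SD, stage 2: the hypothesis of Lemma N with error terms from the output of part V
-/

set_option autoImplicit false

noncomputable section

namespace Pool.Agent.Lib.MP_776403_ag.SD

open Polynomial

/-- From `q_j = e_j(T^(d_1), …, T^(d_c)) q_0` modulo `(1 - T)^(N+1-2c)` to the error bound for every
`J ≥ I`. -/
def S_NumErr : Prop :=
  ∀ (N c : ℕ) (I : Ideal (Sx N)) (d : Fin c → ℕ), I.IsPrime → IsHom I → Smooth I c → 1 ≤ c →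
    2 * c ≤ N + 1 → ∀ q : ℕ → ℤ[X], QP N c (fun k => Module.finrank ℂ (gr I k)) (q 0) →
    (q 0).eval 1 ≠ 0 → (∀ j, j ≤ c → ∃ p, QP N c (hV I (VL I j)) p ∧ q j = X ^ j * p) →
    (∀ j, (1 - X : ℤ[X]) ^ (N + 1 - 2 * c) ∣ q j - SDV.esd d j * q 0) →
    ∀ J : Ideal (Sx N), J.IsPrime → IsHom J → I ≤ J → NumErr I J d c

theorem mNumErr (hP : S_PErr) : S_NumErr := by
  intro N c I d hI hIh hIs hc hcN q hq0 hq1 hp hdiv
  classical
  choose! p hp1 hp2 using hp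
  refine hP N c I d hI hIh hIs hc (by omega) ((1 - X) ^ c * q 0) (q 0)
    (fun j => (1 - X) ^ c * p j) hq0 (fun j hj => hp1 j hj) rfl hq1 ?_
  intro j hj
  obtain ⟨r, hr⟩ := hdiv j
  refine ⟨r, ?_⟩
  have h1 : (1 - X : ℤ[X]) ^ (N + 1 - c) = (1 - X) ^ c * (1 - X) ^ (N + 1 - 2 * c) := by
    rw [← pow_add]
    congr 1
    omega
  calc X ^ j * ((1 - X) ^ c * p j) - SDV.esd d j * ((1 - X) ^ c * q 0) =
        (1 - X) ^ c * (X ^ j * p j - SDV.esd d j * q 0) := by ring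
    _ = (1 - X) ^ c * (q j - SDV.esd d j * q 0) := by rw [← hp2 j hj]
    _ = _ := by rw [hr, h1]; ring

end Pool.Agent.Lib.MP_776403_ag.SD
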