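import Mathlib

/-!
# THEOREM SD, Lemma N with error terms: growth classes
-/

set_option autoImplicit false

namespace Pool.Agent.Lib.MP_776403_ag.SD

/-- `E` grows at most like `m ^ r`. -/
def Gw (r : ℕ) (E : ℕ → ℤ) : Prop :=
  ∃ C : ℤ, ∀ᶠ m : ℕ in Filter.atTop, |E m| ≤ C * ((m : ℤ) + 1) ^ r

namespace Gw

variable {r : ℕ} {E F : ℕ → ℤ}

theorem one_le (m : ℕ) : (1 : ℤ) ≤ (m : ℤ) + 1 := by
  have := Int.natCast_nonneg m
  linarith

theorem pow_nonneg' (m r : ℕ) : (0 : ℤ) ≤ ((m : ℤ) + 1) ^ r := by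
  have := one_le m
  positivity

/-- The constant may be taken nonnegative. -/
theorem exists_nonneg (h : Gw r E) :
    ∃ C : ℤ, 0 ≤ C ∧ ∀ᶠ m : ℕ in Filter.atTop, |E m| ≤ C * ((m : ℤ) + 1) ^ r := by
  obtain ⟨C, hC⟩ := h
  refine ⟨|C|, abs_nonneg _, ?_⟩
  filter_upwards [hC] with m hm
  exact hm.trans (mul_le_mul_of_nonneg_right (le_abs_self C) (pow_nonneg' m r))

theorem of_eventually_eq (h : Gw r E) (he : ∀ᶠ m : ℕ in Filter.atTop, E m = F m) : Gw r F := by
  obtain ⟨C, hC⟩ := h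
  refine ⟨C, ?_⟩
  filter_upwards [hC, he] with m hm hm'
  rw [← hm']
  exact hm

theorem of_eventually_zero (he : ∀ᶠ m : ℕ in Filter.atTop, E m = 0) : Gw r E := by
  refine ⟨0, ?_⟩
  filter_upwards [he] with m hm
  rw [hm]
  simp

theorem zero : Gw r (fun _ => 0) := of_eventually_zero (Filter.Eventually.of_forall fun _ => rfl)

theorem add (h : Gw r E) (h' : Gw r F) : Gw r (fun m => E m + F m) := by
  obtain ⟨C, hC⟩ := h
  obtain ⟨C', hC'⟩ := h'
  refine ⟨C + C', ?_⟩
  filter_upwards [hC, hC'] with m hm hm'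
  rw [add_mul]
  exact (abs_add_le _ _).trans (add_le_add hm hm')

theorem neg (h : Gw r E) : Gw r (fun m => - E m) := by
  obtain ⟨C, hC⟩ := h
  refine ⟨C, ?_⟩
  filter_upwards [hC] with m hm
  rwa [abs_neg]

theorem sub (h : Gw r E) (h' : Gw r F) : Gw r (fun m => E m - F m) := by
  refine (h.add h'.neg).of_eventually_eq (Filter.Eventually.of_forall fun m => ?_)
  ring

theorem const_mul (a : ℤ) (h : Gw r E) : Gw r (fun m => a * E m) := by
  obtain ⟨C, hC⟩ := h
  refine ⟨|a| * C, ?_⟩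
  filter_upwards [hC] with m hm
  rw [abs_mul, mul_assoc]
  exact mul_le_mul_of_nonneg_left hm (abs_nonneg a)

theorem sum {ι : Type*} (s : Finset ι) (G : ι → ℕ → ℤ) (h : ∀ i ∈ s, Gw r (G i)) :
    Gw r (fun m => ∑ i ∈ s, G i m) := by
  classical
  induction s using Finset.induction_on with
  | empty => exact zero.of_eventually_eq (Filter.Eventually.of_forall fun m => by simp)
  | insert a s ha ih =>
    refine ((h a (Finset.mem_insert_self a s)).add
      (ih fun i hi => h i (Finset.mem_insert_of_mem hi))).of_eventually_eq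
      (Filter.Eventually.of_forall fun m => ?_)
    rw [Finset.sum_insert ha]

theorem shift (e : ℕ) (h : Gw r E) : Gw r (fun m => E (m - e)) := by
  obtain ⟨C, hC0, hC⟩ := h.exists_nonneg
  refine ⟨C, ?_⟩
  filter_upwards [(Filter.tendsto_sub_atTop_nat e).eventually hC] with m hm
  refine hm.trans (mul_le_mul_of_nonneg_left ?_ hC0)
  refine pow_le_pow_left₀ (by have := one_le (m - e); linarith) ?_ r
  have h1 : ((m - e : ℕ) : ℤ) ≤ (m : ℤ) := by
    have : m - e ≤ m := Nat.sub_le m e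
    exact_mod_cast this
  linarith

theorem mono {r' : ℕ} (hr : r ≤ r') (h : Gw r E) : Gw r' E := by
  obtain ⟨C, hC0, hC⟩ := h.exists_nonneg
  refine ⟨C, ?_⟩
  filter_upwards [hC] with m hm
  exact hm.trans (mul_le_mul_of_nonneg_left (pow_le_pow_right₀ (one_le m) hr) hC0)

end Gw

end Pool.Agent.Lib.MP_776403_ag.SD
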